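import Mathlib

set_option autoImplicit false

namespace Pool.Agent.U555.BD

open Finset
open scoped ENNReal InnerProductSpace

variable (𝕜 : Type) [RCLike 𝕜]

/-- the Hilbert space `ℓ₂` -/
abbrev L2 : Type := lp (fun _ : ℕ => 𝕜) 2

/-- block of an index -/
def bl (k : ℕ) : ℕ := (Nat.unpair k).1

/-- position of an index inside its block -/
def rk (k : ℕ) : ℕ := (Nat.unpair k).2

theorem bl_pair (b n : ℕ) : bl (Nat.pair b n) = b := by unfold bl; rw [Nat.unpair_pair]

theorem rk_pair (b n : ℕ) : rk (Nat.pair b n) = n := by unfold rk; rw [Nat.unpair_pair]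

theorem pair_bl_rk (k : ℕ) : Nat.pair (bl k) (rk k) = k := Nat.pair_unpair k

noncomputable def cc (k : ℕ) : ℝ := if rk k ≤ bl k then 1 / Real.sqrt (rk k + 1) else 0

theorem cc_nonneg (k : ℕ) : 0 ≤ cc k := by
  unfold cc
  split_ifs
  · positivity
  · exact le_rfl

theorem cc_le (k : ℕ) : cc k ≤ 1 / Real.sqrt (rk k + 1) := by
  unfold cc
  split_ifs
  · exact le_rfl
  · positivity

noncomputable def HH (b : ℕ) : ℝ := ∑ n ∈ range (b + 1), 1 / ((n : ℝ) + 1)

theorem HH_ge (b : ℕ) : 1 ≤ HH b := by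
  unfold HH
  rw [Finset.sum_range_succ']
  have : 0 ≤ ∑ k ∈ range b, 1 / (((k + 1 : ℕ) : ℝ) + 1) := Finset.sum_nonneg fun i _ => by positivity
  simp only [Nat.cast_zero, zero_add, div_one]
  linarith

theorem cc_pair (b n : ℕ) (h : n ∈ range (b + 1)) : cc (Nat.pair b n) = 1 / Real.sqrt (n + 1) := by
  unfold cc
  rw [bl_pair, rk_pair, if_pos (by rw [Finset.mem_range] at h; omega)]

theorem cc_sq (b n : ℕ) (h : n ∈ range (b + 1)) :
    cc (Nat.pair b n) * cc (Nat.pair b n) = 1 / ((n : ℝ) + 1) := by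
  rw [cc_pair b n h, div_mul_div_comm, Real.mul_self_sqrt (by positivity), one_mul]

theorem sum_cc_sq (b : ℕ) : ∑ n ∈ range (b + 1), cc (Nat.pair b n) * cc (Nat.pair b n) = HH b :=
  Finset.sum_congr rfl fun n hn => cc_sq b n hn

theorem sqrt_HH_pos (b : ℕ) : 0 < Real.sqrt (HH b) :=
  Real.sqrt_pos.2 (lt_of_lt_of_le one_pos (HH_ge b))

theorem sqrt_mul_self_HH (b : ℕ) : Real.sqrt (HH b) * Real.sqrt (HH b) = HH b :=
  Real.mul_self_sqrt (le_trans zero_le_one (HH_ge b))

variable {𝕜}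

noncomputable def e (k : ℕ) : L2 𝕜 := lp.single 2 k (1 : 𝕜)

theorem inner_e (k : ℕ) (f : L2 𝕜) : inner 𝕜 (e k) f = f k := by
  unfold e
  rw [lp.inner_single_left]
  simp

theorem e_apply (k j : ℕ) : (e k : L2 𝕜) j = if j = k then 1 else 0 := by
  unfold e
  rw [lp.single_apply]
  by_cases h : j = k
  · rw [if_pos h, h, Pi.single_eq_same]
  · rw [if_neg h, Pi.single_eq_of_ne h]

theorem orth_e : Orthonormal 𝕜 (fun k : ℕ => (e k : L2 𝕜)) := by
  rw [orthonormal_iff_ite]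
  intro i j
  rw [inner_e, e_apply]

noncomputable def u (b : ℕ) : L2 𝕜 :=
  ∑ n ∈ range (b + 1), ((cc (Nat.pair b n) / Real.sqrt (HH b) : ℝ) : 𝕜) • e (Nat.pair b n)

theorem lp_sum_apply {ι : Type*} (s : Finset ι) (f : ι → L2 𝕜) (k : ℕ) :
    (∑ i ∈ s, f i : L2 𝕜) k = ∑ i ∈ s, f i k := by
  rw [lp.coeFn_sum, Finset.sum_apply]

theorem u_apply (b k : ℕ) : (u b : L2 𝕜) k =
    if bl k = b then ((cc k / Real.sqrt (HH b) : ℝ) : 𝕜) else 0 := by
  unfold u
  rw [lp_sum_apply]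
  simp only [lp.coeFn_smul, Pi.smul_apply, e_apply, smul_eq_mul]
  by_cases h : bl k = b
  · rw [if_pos h]
    by_cases h2 : rk k ≤ bl k
    · rw [Finset.sum_eq_single (rk k)]
      · rw [← h, pair_bl_rk, if_pos rfl, mul_one]
      · intro n _ hn
        rw [if_neg, mul_zero]
        intro h3
        apply hn
        rw [h3, rk_pair]
      · intro h3
        rw [Finset.mem_range] at h3
        omega
    · have : cc k = 0 := by unfold cc; rw [if_neg h2]
      rw [this, zero_div, RCLike.ofReal_zero]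
      apply Finset.sum_eq_zero
      intro n hn
      rw [if_neg, mul_zero]
      intro h3
      rw [Finset.mem_range] at hn
      rw [h3, rk_pair, bl_pair] at h2
      omega
  · rw [if_neg h]
    apply Finset.sum_eq_zero
    intro n hn
    rw [if_neg, mul_zero]
    intro h3
    apply h
    rw [h3, bl_pair]

theorem inner_u (b : ℕ) (f : L2 𝕜) : inner 𝕜 (u b) f =
    ∑ n ∈ range (b + 1), ((cc (Nat.pair b n) / Real.sqrt (HH b) : ℝ) : 𝕜) * f (Nat.pair b n) := by
  unfold u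
  rw [sum_inner]
  apply Finset.sum_congr rfl
  intro n _
  rw [inner_smul_left, inner_e, RCLike.conj_ofReal]

theorem inner_u_u (b b' : ℕ) : inner 𝕜 (u b : L2 𝕜) (u b') = if b = b' then 1 else 0 := by
  rw [inner_u]
  by_cases h : b = b'
  · subst h
    rw [if_pos rfl]
    have : ∀ n ∈ range (b + 1), ((cc (Nat.pair b n) / Real.sqrt (HH b) : ℝ) : 𝕜) *
        (u b : L2 𝕜) (Nat.pair b n) =
        ((cc (Nat.pair b n) * cc (Nat.pair b n) / HH b : ℝ) : 𝕜) := by
      intro n _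
      rw [u_apply, bl_pair, if_pos rfl, ← RCLike.ofReal_mul, div_mul_div_comm, sqrt_mul_self_HH]
    rw [Finset.sum_congr rfl this, ← RCLike.ofReal_sum, ← Finset.sum_div, sum_cc_sq, div_self,
      RCLike.ofReal_one]
    exact (lt_of_lt_of_le one_pos (HH_ge b)).ne'
  · rw [if_neg h]
    apply Finset.sum_eq_zero
    intro n _
    rw [u_apply, bl_pair, if_neg h, mul_zero]

theorem orth_u : Orthonormal 𝕜 (fun b : ℕ => (u b : L2 𝕜)) := by
  rw [orthonormal_iff_ite]
  exact inner_u_u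

theorem conj_u (b k : ℕ) : (starRingEnd 𝕜) ((u b : L2 𝕜) k) = (u b : L2 𝕜) k := by
  rw [u_apply]
  split_ifs
  · rw [RCLike.conj_ofReal]
  · simp

theorem inner_e_right (k : ℕ) (f : L2 𝕜) : inner 𝕜 f (e k) = (starRingEnd 𝕜) (f k) := by
  rw [← inner_conj_symm, inner_e]

/-- the perturbed unit vectors -/
noncomputable def X (α : ℕ → ℝ) (k : ℕ) : L2 𝕜 :=
  e k + ((α (bl k) * cc k : ℝ) : 𝕜) • u (bl k)

theorem inner_X (α : ℕ → ℝ) (k : ℕ) (f : L2 𝕜) :
    inner 𝕜 (X α k) f = f k + ((α (bl k) * cc k : ℝ) : 𝕜) * inner 𝕜 (u (bl k)) f := by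
  unfold X
  rw [inner_add_left, inner_e, inner_smul_left, RCLike.conj_ofReal]

theorem X_apply (α : ℕ → ℝ) (k j : ℕ) : (X α k : L2 𝕜) j =
    (if j = k then 1 else 0) + ((α (bl k) * cc k : ℝ) : 𝕜) * (u (bl k) : L2 𝕜) j := by
  unfold X
  rw [lp.coeFn_add, Pi.add_apply, e_apply, lp.coeFn_smul, Pi.smul_apply, smul_eq_mul]

theorem biorth (α β : ℕ → ℝ) (h : ∀ b, α b + β b + α b * β b * Real.sqrt (HH b) = 0) (j k : ℕ) :
    inner 𝕜 (X β j : L2 𝕜) (X α k) = if j = k then 1 else 0 := by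
  rw [inner_X, X_apply]
  have h1 : inner 𝕜 (u (bl j) : L2 𝕜) (X α k) =
      (u (bl j) : L2 𝕜) k + ((α (bl k) * cc k : ℝ) : 𝕜) * (if bl j = bl k then 1 else 0) := by
    unfold X
    rw [inner_add_right, inner_e_right, conj_u, inner_smul_right, inner_u_u]
  rw [h1]
  by_cases hb : bl j = bl k
  · have hs := sqrt_HH_pos (bl k)
    have key : α (bl k) * cc k * (cc j / Real.sqrt (HH (bl k))) +
        β (bl j) * cc j * (cc k / Real.sqrt (HH (bl j)) + α (bl k) * cc k) = 0 := by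
      rw [hb]
      have h2 := h (bl k)
      have h3 : α (bl k) * cc k * (cc j / Real.sqrt (HH (bl k))) +
        β (bl k) * cc j * (cc k / Real.sqrt (HH (bl k)) + α (bl k) * cc k) =
        cc j * cc k / Real.sqrt (HH (bl k)) *
          (α (bl k) + β (bl k) + α (bl k) * β (bl k) * Real.sqrt (HH (bl k))) := by
        field_simp
        ring
      rw [h3, h2, mul_zero]
    rw [if_pos hb, u_apply, if_pos hb, u_apply, if_pos hb.symm, mul_one]
    have key' : (((α (bl k) * cc k * (cc j / Real.sqrt (HH (bl k))) +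
        β (bl j) * cc j * (cc k / Real.sqrt (HH (bl j)) + α (bl k) * cc k) : ℝ)) : 𝕜) = 0 := by
      rw [key, RCLike.ofReal_zero]
    push_cast at key' ⊢
    rw [add_assoc, key', add_zero]
  · have hne : j ≠ k := fun h => hb (by rw [h])
    have hb' : ¬ bl k = bl j := fun h => hb h.symm
    rw [u_apply, if_neg hb, u_apply, if_neg hb', if_neg hne]
    simp [hb]

theorem total (β : ℕ → ℝ) (h : ∀ b, 1 + β b * Real.sqrt (HH b) ≠ 0) (f : L2 𝕜)
    (hf : ∀ k, inner 𝕜 (X β k : L2 𝕜) f = 0) : f = 0 := by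
  have h1 : ∀ k, f k = - (((β (bl k) * cc k : ℝ) : 𝕜) * inner 𝕜 (u (bl k)) f) := by
    intro k
    have := hf k
    rw [inner_X] at this
    exact eq_neg_of_add_eq_zero_left this
  have h2 : ∀ b, inner 𝕜 (u b) f = 0 := by
    intro b
    have h3 : inner 𝕜 (u b) f = - (((β b * Real.sqrt (HH b) : ℝ) : 𝕜) * inner 𝕜 (u b) f) := by
      conv_lhs => rw [inner_u]
      have : ∀ n ∈ range (b + 1), ((cc (Nat.pair b n) / Real.sqrt (HH b) : ℝ) : 𝕜) *
          f (Nat.pair b n) = - (((β b * (cc (Nat.pair b n) * cc (Nat.pair b n)) /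
            Real.sqrt (HH b) : ℝ) : 𝕜) * inner 𝕜 (u b) f) := by
        intro n _
        rw [h1, bl_pair]
        push_cast
        ring
      rw [Finset.sum_congr rfl this, Finset.sum_neg_distrib, ← Finset.sum_mul,
        ← RCLike.ofReal_sum, ← Finset.sum_div, ← Finset.mul_sum, sum_cc_sq]
      congr 3
      rw [mul_div_assoc]
      congr 1
      rw [div_eq_iff (sqrt_HH_pos b).ne', sqrt_mul_self_HH]
    have h4 : (((1 + β b * Real.sqrt (HH b) : ℝ)) : 𝕜) * inner 𝕜 (u b) f = 0 := by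
      push_cast at h3 ⊢
      linear_combination h3
    rcases mul_eq_zero.1 h4 with h5 | h5
    · exact absurd (RCLike.ofReal_eq_zero.1 h5) (h b)
    · exact h5
  ext k
  rw [h1, h2, mul_zero, neg_zero]
  rfl


/-- `∑_{n ∈ D} (n+1)^{-1/2} ≤ 2 √|D|` -/
theorem sum_inv_sqrt_le : ∀ (N : ℕ) (D : Finset ℕ), D.card = N →
    ∑ n ∈ D, 1 / Real.sqrt ((n : ℝ) + 1) ≤ 2 * Real.sqrt N := by
  intro N
  induction N with
  | zero =>
    intro D hD
    rw [Finset.card_eq_zero] at hD
    subst hD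
    simp
  | succ N ih =>
    intro D hD
    have hne : D.Nonempty := by
      rw [← Finset.card_pos]
      omega
    set m := D.max' hne with hm
    have hmD : m ∈ D := D.max'_mem hne
    have hle : N ≤ m := by
      have : D ⊆ range (m + 1) := by
        intro n hn
        rw [Finset.mem_range]
        exact Nat.lt_succ_of_le (D.le_max' n hn)
      have := Finset.card_le_card this
      rw [Finset.card_range] at this
      omega
    have h1 := ih (D.erase m) (by rw [Finset.card_erase_of_mem hmD, hD]; rfl)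
    rw [← Finset.add_sum_erase D _ hmD]
    have h2 : 1 / Real.sqrt ((m : ℝ) + 1) ≤ 1 / Real.sqrt ((N : ℝ) + 1) := by
      apply one_div_le_one_div_of_le
      · positivity
      · apply Real.sqrt_le_sqrt
        have : (N : ℝ) ≤ m := by exact_mod_cast hle
        linarith
    have h3 : 1 / Real.sqrt ((N : ℝ) + 1) + 2 * Real.sqrt N ≤ 2 * Real.sqrt ((N + 1 : ℕ) : ℝ) := by
      push_cast
      have hp : 0 < Real.sqrt ((N : ℝ) + 1) := by positivity
      have h4 : Real.sqrt ((N : ℝ) + 1) * Real.sqrt ((N : ℝ) + 1) = N + 1 :=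
        Real.mul_self_sqrt (by positivity)
      have h5 : Real.sqrt N * Real.sqrt N = N := Real.mul_self_sqrt (by positivity)
      have h6 : 0 ≤ Real.sqrt N := Real.sqrt_nonneg _
      have h7 : 1 / Real.sqrt ((N : ℝ) + 1) ≤
          2 * (Real.sqrt ((N : ℝ) + 1) - Real.sqrt N) := by
        rw [div_le_iff₀ hp]
        nlinarith [sq_nonneg (Real.sqrt ((N : ℝ) + 1) - Real.sqrt N)]
      linarith
    linarith

theorem sum_cc_le (b : ℕ) (A : Finset ℕ) (hA : ∀ k ∈ A, bl k = b) :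
    ∑ k ∈ A, cc k ≤ 2 * Real.sqrt A.card := by
  have hinj : Set.InjOn rk (A : Set ℕ) := by
    intro j hj k hk h
    rw [← pair_bl_rk j, ← pair_bl_rk k, hA j hj, hA k hk, h]
  have h1 := sum_inv_sqrt_le _ (A.image rk) rfl
  rw [Finset.card_image_of_injOn hinj, Finset.sum_image hinj] at h1
  exact (Finset.sum_le_sum fun k _ => cc_le k).trans h1

theorem norm_sum_orth {v : ℕ → L2 𝕜} (hv : Orthonormal 𝕜 v) (A : Finset ℕ) (t : ℕ → 𝕜) :
    ‖∑ k ∈ A, t k • v k‖ ^ 2 = ∑ k ∈ A, ‖t k‖ ^ 2 := by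
  have h := hv.inner_sum t t A
  have h2 := @norm_sq_eq_re_inner 𝕜 (L2 𝕜) _ _ _ (∑ k ∈ A, t k • v k)
  rw [h2, h, map_sum]
  apply Finset.sum_congr rfl
  intro k _
  rw [RCLike.conj_mul, ← RCLike.ofReal_pow, RCLike.ofReal_re]

theorem upper (α : ℕ → ℝ) (hα : ∀ b, |α b| ≤ 1) (A : Finset ℕ) (ε : ℕ → 𝕜)
    (hε : ∀ k ∈ A, ‖ε k‖ = 1) : ‖∑ k ∈ A, ε k • (X α k : L2 𝕜)‖ ≤ 3 * Real.sqrt A.card := by
  classical
  have h0 : ∑ k ∈ A, ε k • (X α k : L2 𝕜) = ∑ k ∈ A, ε k • e k +
      ∑ b ∈ A.image bl, (∑ k ∈ A with bl k = b, ε k * ((α b * cc k : ℝ) : 𝕜)) • u b := by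
    have h1 : ∑ k ∈ A, ε k • (X α k : L2 𝕜) = ∑ k ∈ A, ε k • e k +
        ∑ k ∈ A, (ε k * ((α (bl k) * cc k : ℝ) : 𝕜)) • u (bl k) := by
      rw [← Finset.sum_add_distrib]
      apply Finset.sum_congr rfl
      intro k _
      unfold X
      rw [smul_add, smul_smul]
    rw [h1]
    congr 1
    rw [← Finset.sum_fiberwise_of_maps_to (g := bl) (t := A.image bl)
      (fun k hk => Finset.mem_image_of_mem bl hk)]
    apply Finset.sum_congr rfl
    intro b _
    rw [Finset.sum_smul]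
    apply Finset.sum_congr rfl
    intro k hk
    rw [Finset.mem_filter] at hk
    rw [hk.2]
  rw [h0]
  have h1 : ‖∑ k ∈ A, ε k • (e k : L2 𝕜)‖ ≤ Real.sqrt A.card := by
    apply Real.le_sqrt_of_sq_le
    rw [norm_sum_orth orth_e]
    have : ∀ k ∈ A, ‖ε k‖ ^ 2 = 1 := fun k hk => by rw [hε k hk, one_pow]
    rw [Finset.sum_congr rfl this, Finset.sum_const, nsmul_eq_mul, mul_one]
  have h2 : ‖∑ b ∈ A.image bl, (∑ k ∈ A with bl k = b, ε k * ((α b * cc k : ℝ) : 𝕜)) •
      (u b : L2 𝕜)‖ ≤ 2 * Real.sqrt A.card := by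
    have h3 : (2 * Real.sqrt A.card) = Real.sqrt (4 * A.card) := by
      rw [Real.sqrt_mul (by norm_num), show (4 : ℝ) = 2 ^ 2 by norm_num,
        Real.sqrt_sq (by norm_num)]
    rw [h3]
    apply Real.le_sqrt_of_sq_le
    rw [norm_sum_orth orth_u]
    have h4 : ∀ b ∈ A.image bl, ‖∑ k ∈ A with bl k = b, ε k * ((α b * cc k : ℝ) : 𝕜)‖ ^ 2 ≤
        4 * ((A.filter (fun k => bl k = b)).card : ℝ) := by
      intro b _
      have h5 : ‖∑ k ∈ A with bl k = b, ε k * ((α b * cc k : ℝ) : 𝕜)‖ ≤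
          2 * Real.sqrt ((A.filter (fun k => bl k = b)).card : ℝ) := by
        refine (norm_sum_le _ _).trans ?_
        refine le_trans (Finset.sum_le_sum fun k hk => ?_)
          (sum_cc_le b (A.filter (fun k => bl k = b)) (fun k hk => (Finset.mem_filter.1 hk).2))
        rw [Finset.mem_filter] at hk
        rw [norm_mul, hε k hk.1, one_mul, RCLike.norm_ofReal, abs_mul, abs_of_nonneg (cc_nonneg k)]
        have := hα b
        have := cc_nonneg k
        nlinarith
      have h6 := Real.mul_self_sqrt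
        (show (0 : ℝ) ≤ ((A.filter (fun k => bl k = b)).card : ℝ) by positivity)
      have h7 := Real.sqrt_nonneg ((A.filter (fun k => bl k = b)).card : ℝ)
      nlinarith [norm_nonneg (∑ k ∈ A with bl k = b, ε k * ((α b * cc k : ℝ) : 𝕜))]
    refine (Finset.sum_le_sum h4).trans ?_
    rw [← Finset.mul_sum]
    have h8 : ∑ b ∈ A.image bl, (A.filter (fun k => bl k = b)).card = A.card := by
      rw [← Finset.card_eq_sum_card_image]
    have h9 : ∑ b ∈ A.image bl, ((A.filter (fun k => bl k = b)).card : ℝ) = A.card := by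
      exact_mod_cast h8
    rw [h9]
  refine (norm_add_le _ _).trans ?_
  linarith

end Pool.Agent.U555.BD
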